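import Pool.Agent.TH198.AT.Conv

/-!
# AT-CONV: converse direction of the de Almeida–Thouless line (job 5525)
-/

set_option autoImplicit false

open MeasureTheory ProbabilityTheory Set Filter Topology

namespace Pool.TH633.AT

open Pool.TH198.AT

theorem one_cdf' {q : ℝ} (hq1 : q ≤ 1) : IsCdf (one q) := by
  refine ⟨?_, ?_, ?_, ?_⟩
  · intro s _ t _ hst
    unfold one
    by_cases h1 : q ≤ s
    · rw [if_pos h1, if_pos (h1.trans hst)]
    · rw [if_neg h1]
      split_ifs <;> norm_num
  · intro t _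
    unfold one
    split_ifs <;> norm_num
  · unfold one
    rw [if_pos hq1]
  · intro t _
    by_cases h1 : q ≤ t
    · have h2 : EqOn (one q) (fun _ => 1) (Ici t) := fun s hs => by
        unfold one
        rw [if_pos (h1.trans hs)]
      exact (continuousWithinAt_const (b := (1 : ℝ))).congr h2 (h2 self_mem_Ici)
    · have h2 : t < q := lt_of_not_ge h1
      have h3 : ∀ᶠ s in 𝓝[Ici t] t, one q s = 0 := by
        have : ∀ᶠ s in 𝓝[Ici t] t, s < q := nhdsWithin_le_nhds (Iio_mem_nhds h2)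
        filter_upwards [this] with s hs
        unfold one
        rw [if_neg (not_le.2 hs)]
      have h4 : one q t = 0 := by
        unfold one
        rw [if_neg h1]
      unfold ContinuousWithinAt
      rw [h4]
      exact (tendsto_const_nhds (x := (0 : ℝ))).congr' (h3.mono fun s hs => hs.symm)

theorem arg_eq {β p : ℝ} (hβ : 0 < β) (h z : ℝ) :
    β * z * √(2 * p) + h = h + √(2 * β ^ 2 * p) * z := by
  have h1 : √(2 * β ^ 2 * p) = β * √(2 * p) := by
    rw [show 2 * β ^ 2 * p = β ^ 2 * (2 * p) by ring, Real.sqrt_mul (sq_nonneg β),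
      Real.sqrt_sq hβ.le]
  rw [h1]
  ring

theorem fix_eq {β p : ℝ} (hβ : 0 < β) (h : ℝ) :
    E1 (fun z => Real.tanh (β * z * √(2 * p) + h) ^ 2) =
      E1 (fun z => Real.tanh (h + √(2 * β ^ 2 * p) * z) ^ 2) := by
  congr 1
  funext z
  rw [arg_eq hβ]

theorem E1_const (c : ℝ) : E1 (fun _ => c) = c := by
  unfold E1
  simp

theorem t_CONV (hF0 : St_F0) (hONE : St_ONEPT) (hLESS : St_LESS) (hPAR : St_PAR2) (hLG : St_LG)
    (hZ : St_ZERO) : St_CONV := by
  intro β h q q' hβ hM hG
  obtain ⟨⟨hq0, hq1⟩, hmin⟩ := hM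
  obtain ⟨⟨⟨hp0, hp1⟩, hpf⟩, hub⟩ := hG
  rw [fix_eq hβ] at hpf
  obtain ⟨hlt, hfix⟩ := hONE β h q' hβ hq0 hq1 fun t ht0 ht1 =>
    hmin (one t) (f0 β t) (one_cdf' ht1) (hF0 β t hβ ht0 ht1)
  have hdat : 2 * β ^ 2 * E1 (fun z => sech (h + √(2 * β ^ 2 * q') * z) ^ 4) ≤ 1 := by
    by_contra hc
    push Not at hc
    obtain ⟨m, t, hm0, hm1, hqt, ht1, hl⟩ := hLESS β h q' hβ hq0 hlt hfix hc
    obtain ⟨h1, h2⟩ := hPAR β q' m t hβ hq0 hqt ht1 hm0 hm1
    exact absurd (hmin _ _ h1 h2) (not_le.2 hl)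
  have hle : q' ≤ q := hub ⟨⟨hq0, hq1⟩, by rw [fix_eq hβ]; exact hfix⟩
  have heq : q' = q := by
    rcases hle.lt_or_eq with hlt' | heq
    · exfalso
      rcases hq0.lt_or_eq with hpos | hzero
      · exact hLG β h q' q hβ hpos hlt' hfix hpf
      · rw [← hzero] at hfix hdat
        simp only [mul_zero, Real.sqrt_zero, zero_mul, add_zero, E1_const] at hfix hdat
        have ht : Real.tanh h = 0 := by
          have := hfix.symm
          exact pow_eq_zero_iff (two_ne_zero) |>.1 this
        have hh : h = 0 := by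
          rw [Real.tanh_eq_sinh_div_cosh, div_eq_zero_iff] at ht
          rcases ht with ht | ht
          · exact Real.sinh_eq_zero.1 ht
          · exact absurd ht (Real.cosh_pos h).ne'
        subst hh
        have h1 : sech 0 = 1 := by
          unfold sech
          rw [Real.cosh_zero, inv_one]
        rw [h1] at hdat
        have h2 := hZ β q hβ (by linarith) (by rw [← hzero] at hlt'; exact hlt')
        rw [← hpf] at h2
        exact lt_irrefl _ h2
    · exact heq
  refine ⟨?_, heq⟩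
  rw [← heq]
  have h1 : (fun z => sech (β * z * √(2 * q') + h) ^ 4) =
      fun z => sech (h + √(2 * β ^ 2 * q') * z) ^ 4 := by
    funext z
    rw [arg_eq hβ]
  rw [h1]
  linarith

end Pool.TH633.AT
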